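import Pool.Agent.helper21.UB.Spec

set_option autoImplicit false

open Quaternion

namespace Pool.Agent.helper21.UB

theorem FIN_mem (k : ℕ) (v : Fin 3 → ℤ) (hv : ∑ i, v i ^ 2 = (k : ℤ)) (i : Fin 3) :
    v i ∈ Finset.Icc (-(k : ℤ)) (k : ℤ) := by
  have h1 : v i ^ 2 ≤ (k : ℤ) := by
    rw [← hv]
    exact Finset.single_le_sum (f := fun j => v j ^ 2) (fun j _ => sq_nonneg (v j))
      (Finset.mem_univ i)
  have h2 : |v i| ≤ v i ^ 2 := by
    rcases eq_or_ne (v i) 0 with h | h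
    · rw [h]; simp
    · have h3 : 1 ≤ |v i| := Int.one_le_abs h
      rw [← sq_abs (v i)]
      nlinarith
  rw [Finset.mem_Icc, ← abs_le]
  exact h2.trans h1

theorem FIN_inj (k : ℕ) : Function.Injective
    (fun (v : {v : Fin 3 → ℤ // ∑ i, v i ^ 2 = (k : ℤ)}) (i : Fin 3) =>
      (⟨v.1 i, FIN_mem k v.1 v.2 i⟩ : {z : ℤ // z ∈ Finset.Icc (-(k : ℤ)) (k : ℤ)})) := by
  intro v w h
  apply Subtype.ext
  funext i
  exact congrArg Subtype.val (congrFun h i)

theorem FIN : FIN_stmt := by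
  refine ⟨fun k => Finite.of_injective _ (FIN_inj k), fun k => ?_⟩
  have h := Nat.card_le_card_of_injective _ (FIN_inj k)
  rw [Nat.card_eq_fintype_card (α := Fin 3 → {z : ℤ // z ∈ Finset.Icc (-(k : ℤ)) (k : ℤ)})] at h
  rw [Fintype.card_fun, Fintype.card_coe, Int.card_Icc, Fintype.card_fin] at h
  have h2 : ((k : ℤ) + 1 - -(k : ℤ)).toNat = 2 * k + 1 := by omega
  rw [h2] at h
  exact h

end Pool.Agent.helper21.UB
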